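import Pool.Agent.Lib.H80S.BR1
import Pool.Agent.Lib.H56M.O5
import Pool.Agent.Lib.H56M.W1

/-!
# BR2: square integrability
-/

namespace Pool.Agent.Lib.H80S

open Matrix hiding J
open MeasureTheory
open Pool.Agent.Lib.H56.Picard (SU21 mat X mu mkSU U)
open Pool.Agent.Lib.H56.Gen (QD OO Gam GamN Cusp PsiE)
open scoped ENNReal

noncomputable section

variable {t n : ℤ}

/-- Invariance under `GamN`. -/
theorem inv_of (h : t ^ 2 < 4 * n) {N : ℕ} {f : ℂ × ℂ → ℂ} {lam : ℂ} (hf : AutForm t n N f lam)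
    (γ : Gam (qq t n h)) (hγ : γ ∈ GamN (qq t n h) (N : ℂ)) (z : ℂ × ℂ) (hz : z ∈ U) :
    f (H56.Picard.act (mat γ.1) z) = f z := by
  rw [← act_eq]
  exact hf.inv _ ((mem_Gamma h γ.1).2 ⟨γ.2, hγ⟩) z hz

/-- PROOF. Let `Φ = |f|² 1_F`. `∑' γ : GamN, 1_F (γ z) ≥ 1` (covering), so
`∫ wG |f|² ≤ ∫ wG ∑' γ, Φ (γ z) = ∫ Φ dμ` (`unfold_lintegral` with `w = wG D G`, `c = 1`, `sum_wG`; invariance of `f`),
and `∫ Φ dμ` is the integral of the definition (`lintegral_mu`; the set `F` is contained in the domain). -/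
theorem L2_of_cover (h : t ^ 2 < 4 * n) (D : H56M.MC (qq t n h)) {N : ℕ} (hN : 1 ≤ N)
    {f : ℂ × ℂ → ℂ} {lam : ℂ} (hf : AutForm t n N f lam) :
    ∫⁻ z : X, H56M.wG D (GamN (qq t n h) (N : ℂ)) z *
      ENNReal.ofReal (Complex.normSq (f z.1)) ∂mu ≠ ⊤ := by
  classical
  have hN0 : (N : ℂ) ≠ 0 := by exact_mod_cast (by omega : N ≠ 0)
  have hfi : (GamN (qq t n h) (N : ℂ)).FiniteIndex :=
    H56.Gen.GamN_finiteIndex (natCast_mem _ N) hN0
  have hcountA : Countable (Gam (qq t n h)) := H56.Picard.countable_arith H56.Gen.finite_ball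
  have hcountG : Countable (GamN (qq t n h) (N : ℂ)) := inferInstance
  obtain ⟨F, hF, hFU, hcov, hint⟩ := hf.L2
  -- the measurable function
  have hUm : MeasurableSet U := H56.Picard.measurableSet_siegel
  have hcont : ContinuousOn (fun z => ENNReal.ofReal (Complex.normSq (f z))) U :=
    ENNReal.continuous_ofReal.comp_continuousOn
      (Complex.continuous_normSq.comp_continuousOn hf.smooth.continuousOn)
  have hm1 : Measurable (U.piecewise (fun z => ENNReal.ofReal (Complex.normSq (f z))) fun _ => 0) :=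
    hcont.measurable_piecewise continuousOn_const hUm
  set φ : ℂ × ℂ → ℝ≥0∞ := F.indicator
    (U.piecewise (fun z => ENNReal.ofReal (Complex.normSq (f z))) fun _ => 0) with hφ
  have hφm : Measurable φ := hm1.indicator hF
  have hφF : ∀ z ∈ F, φ z = ENNReal.ofReal (Complex.normSq (f z)) := by
    intro z hz
    have hzU : z ∈ U := hFU z hz
    rw [hφ, Set.indicator_of_mem hz, Set.piecewise_eq_of_mem _ _ _ hzU]
  have h1 : ∫⁻ z : X, φ z.1 ∂mu ≠ ⊤ := by
    rw [H56.Picard.lintegral_mu φ hφm]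
    refine ne_top_of_le_ne_top hint.ne ?_
    rw [← lintegral_indicator H56.Picard.measurableSet_siegel, ← lintegral_indicator hF]
    refine lintegral_mono fun z => ?_
    by_cases hz : z ∈ F
    · have hzU : z ∈ {z : ℂ × ℂ | 0 < H56.Picard.height z} := hFU z hz
      rw [Set.indicator_of_mem hzU, Set.indicator_of_mem hz, hφF z hz, ← ENNReal.ofReal_mul (by
          have : 0 < H56.Picard.height z := hFU z hz
          positivity)]
      exact le_rfl
    · have h2 : φ z = 0 := by rw [hφ, Set.indicator_of_notMem hz]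
      rw [Set.indicator_of_notMem hz]
      by_cases hz' : z ∈ {z : ℂ × ℂ | 0 < H56.Picard.height z}
      · rw [Set.indicator_of_mem hz', h2, mul_zero]
      · rw [Set.indicator_of_notMem hz']
  have h3 := H56.Picard.unfold_lintegral (G := GamN (qq t n h) (N : ℂ))
    (H56M.measurable_wG D (GamN (qq t n h) (N : ℂ))) (c := 1)
    (Filter.Eventually.of_forall (H56M.sum_wG D (GamN (qq t n h) (N : ℂ))))
    (Φ := fun z : X => φ z.1) (hφm.comp measurable_subtype_coe)
  rw [one_mul] at h3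
  rw [h3] at h1
  refine ne_top_of_le_ne_top h1 (lintegral_mono fun z => mul_le_mul' le_rfl ?_)
  obtain ⟨γ, hγ, hγF⟩ := hcov z.1 z.2
  obtain ⟨γ', rfl⟩ := exists_SU21 hγ.1
  obtain ⟨h4, h5⟩ := (mem_Gamma h γ').1 hγ
  have h6 : ENNReal.ofReal (Complex.normSq (f z.1)) =
      φ ((⟨⟨γ', h4⟩, h5⟩ : GamN (qq t n h) (N : ℂ)) • z : X).1 := by
    have h7 : ((⟨⟨γ', h4⟩, h5⟩ : GamN (qq t n h) (N : ℂ)) • z : X).1 = act (mat γ') z.1 :=
      (act_eq _ _).symm
    rw [h7, hφF _ hγF, hf.inv _ hγ z.1 z.2]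
  rw [h6]
  exact ENNReal.le_tsum (f := fun γ : GamN (qq t n h) (N : ℂ) => φ (γ • z : X).1) _

end

end Pool.Agent.Lib.H80S
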