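import Pool.Agent.Lib.H80S.Stm
import Pool.Agent.Lib.H56.Gen.LevelGroup
import Pool.Agent.Lib.H56.Picard.Green

/-!
# BR1: dictionary between the statement and the libraries
-/

namespace Pool.Agent.Lib.H80S

open Matrix hiding J
open MeasureTheory
open Pool.Agent.Lib.H56.Picard (SU21 mat X mu mkSU U)
open Pool.Agent.Lib.H56.Gen (QD OO Gam GamN Cusp PsiE)
open scoped ENNReal

noncomputable section

variable {t n : ℤ}

/-- The order as data. -/
def qq (t n : ℤ) (h : t ^ 2 < 4 * n) : QD := ⟨t, n, by omega⟩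

theorem mem_Ord (h : t ^ 2 < 4 * n) {x : ℂ} : x ∈ Ord t n ↔ x ∈ OO (qq t n h) := by
  have key : ∀ a b : ℤ, (a + b * omega t n : ℂ) = H56.Gen.el (qq t n h) a b := by
    intro a b
    have e1 : H56.Gen.sd (qq t n h) = √(4 * n - t ^ 2 : ℝ) := by
      simp only [H56.Gen.sd, H56.Gen.dd, qq]
      push_cast
      rfl
    apply Complex.ext
    · rw [H56.Gen.el_re]
      simp [omega, qq]
      ring
    · rw [H56.Gen.el_im, e1]
      simp [omega]
      ring
  constructor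
  · rintro ⟨a, b, rfl⟩
    exact ⟨a, b, key a b⟩
  · rintro ⟨a, b, rfl⟩
    exact ⟨a, b, (key a b).symm⟩

theorem height_eq (z : ℂ × ℂ) : height z = H56.Picard.height z := rfl

theorem J_eq : J = H56.Picard.J := rfl

/-- PROOF. Expand `mulVec`, `lift` (`jf_apply`, `Fin.sum_univ_three`). -/
theorem act_eq (g : Mat) (z : ℂ × ℂ) : act g z = H56.Picard.act g z := by
  apply Prod.ext
  · simp [act, H56.Picard.act, H56.Picard.jf, H56.Picard.lift, Matrix.mulVec, dotProduct,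
      Fin.sum_univ_three]
  · simp [act, H56.Picard.act, H56.Picard.jf, H56.Picard.lift, Matrix.mulVec, dotProduct,
      Fin.sum_univ_three]

theorem laplacian_eq (f : ℂ × ℂ → ℂ) (z : ℂ × ℂ) :
    laplacian f z = H56.Picard.laplacian f z := rfl

theorem point_eq (e1 e2 : ℂ) (s r v u : ℝ) : point e1 e2 s r v u = PsiE e1 e2 s r v u := rfl

theorem TM_eq (l w : ℂ) : TM l w = H56.Picard.TM l w := rfl

/-- Elements of `SU` come from `SU21`. -/
theorem exists_SU21 {g : Mat} (hg : g ∈ SU) : ∃ g' : SU21, mat g' = g := by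
  exact ⟨mkSU g hg.1 hg.2, H56.Picard.mat_mkSU _ _ _⟩

theorem mat_mem_SU (g : SU21) : mat g ∈ SU := by
  exact ⟨H56.Picard.mat_unitary g, g.2.2⟩

theorem mem_Gamma (h : t ^ 2 < 4 * n) {N : ℕ} (g : SU21) :
    mat g ∈ Gamma t n N ↔ ∃ hg : g ∈ Gam (qq t n h), (⟨g, hg⟩ : Gam (qq t n h)) ∈
      GamN (qq t n h) (N : ℂ) := by
  constructor
  · rintro ⟨-, h1⟩
    have h2 : ∀ i j, ∃ x ∈ OO (qq t n h), mat g i j - (1 : Matrix (Fin 3) (Fin 3) ℂ) i j =
        (N : ℂ) * x := by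
      intro i j
      obtain ⟨x, hx, hxe⟩ := h1 i j
      exact ⟨x, (mem_Ord h).1 hx, hxe⟩
    refine ⟨?_, h2⟩
    intro i j
    obtain ⟨x, hx, hxe⟩ := h2 i j
    have e : mat g i j = N * x + (1 : Matrix (Fin 3) (Fin 3) ℂ) i j := by
      rw [← hxe]
      ring
    rw [e]
    refine (OO _).add_mem ((OO _).mul_mem (natCast_mem _ N) hx) ?_
    rw [Matrix.one_apply]
    split_ifs
    · exact (OO _).one_mem
    · exact (OO _).zero_mem
  · rintro ⟨hg, h1⟩
    refine ⟨mat_mem_SU g, fun i j => ?_⟩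
    obtain ⟨x, hx, hxe⟩ := h1 i j
    exact ⟨x, (mem_Ord h).2 hx, hxe⟩

/-- The group `Γ(1)` is the whole group. -/
theorem mem_Gamma_one (h : t ^ 2 < 4 * n) (g : SU21) :
    mat g ∈ Gamma t n 1 ↔ g ∈ Gam (qq t n h) := by
  constructor
  · intro h1
    exact ((mem_Gamma h g).1 h1).1
  · intro hg
    refine ⟨mat_mem_SU g, fun i j => ⟨mat g i j - (1 : Mat) i j, (mem_Ord h).2 ?_, by simp⟩⟩
    refine (OO _).sub_mem (hg i j) ?_
    rw [Matrix.one_apply]
    split_ifs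
    · exact (OO _).one_mem
    · exact (OO _).zero_mem

/-- The coset of an element. -/
def BR1_F (h : t ^ 2 < 4 * n) (N : ℕ) (g : Gam (qq t n h)) : Set Mat :=
  {x | ∃ γ ∈ Gamma t n N, x = mat g.1 * γ}

lemma BR1_mem (h : t ^ 2 < 4 * n) (N : ℕ) (g : Gam (qq t n h)) {x : Mat} :
    x ∈ BR1_F h N g ↔ ∃ δ : Gam (qq t n h), δ ∈ GamN (qq t n h) (N : ℂ) ∧ x = mat (g * δ).1 := by
  constructor
  · rintro ⟨γ, hγ, rfl⟩
    obtain ⟨γ', rfl⟩ := exists_SU21 hγ.1
    obtain ⟨h1, h2⟩ := (mem_Gamma h γ').1 hγ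
    exact ⟨⟨γ', h1⟩, h2, rfl⟩
  · rintro ⟨δ, hδ, rfl⟩
    exact ⟨mat δ.1, (mem_Gamma h δ.1).2 ⟨δ.2, hδ⟩, rfl⟩

lemma BR1_eq (h : t ^ 2 < 4 * n) (N : ℕ) (g g' : Gam (qq t n h)) :
    BR1_F h N g = BR1_F h N g' ↔ g⁻¹ * g' ∈ GamN (qq t n h) (N : ℂ) := by
  constructor
  · intro h1
    have h2 : mat g'.1 ∈ BR1_F h N g' := (BR1_mem h N g').2 ⟨1, (GamN _ _).one_mem, by rw [mul_one]⟩
    rw [← h1, BR1_mem] at h2
    obtain ⟨δ, hδ, h3⟩ := h2
    have h4 : g' = g * δ := Subtype.ext (H56.Picard.mat_injective h3)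
    rw [h4, inv_mul_cancel_left]
    exact hδ
  · intro h1
    ext x
    rw [BR1_mem, BR1_mem]
    constructor
    · rintro ⟨δ, hδ, rfl⟩
      refine ⟨(g⁻¹ * g')⁻¹ * δ, (GamN _ _).mul_mem ((GamN _ _).inv_mem h1) hδ, ?_⟩
      have e : g' * ((g⁻¹ * g')⁻¹ * δ) = g * δ := by group
      rw [e]
    · rintro ⟨δ, hδ, rfl⟩
      refine ⟨(g⁻¹ * g') * δ, (GamN _ _).mul_mem h1 hδ, ?_⟩
      have e : g * (g⁻¹ * g' * δ) = g' * δ := by group
      rw [e]

/-- PROOF. The map `g GamN ↦ {mat (g γ)}` from the quotient to the set of cosets is a bijection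
(`Subgroup.index`, `Nat.card`, `Set.ncard`, `Nat.card_congr`). -/
theorem index_eq (h : t ^ 2 < 4 * n) (N : ℕ) :
    index t n N = (GamN (qq t n h) (N : ℂ)).index := by
  have h1 : {C : Set Mat | ∃ g ∈ Gamma t n 1, C = {x | ∃ γ ∈ Gamma t n N, x = g * γ}} =
      Set.range (BR1_F h N) := by
    ext C
    constructor
    · rintro ⟨g, hg, rfl⟩
      obtain ⟨g', rfl⟩ := exists_SU21 hg.1
      exact ⟨⟨g', (mem_Gamma_one h g').1 hg⟩, rfl⟩
    · rintro ⟨g, rfl⟩
      exact ⟨mat g.1, (mem_Gamma_one h g.1).2 g.2, rfl⟩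
  let φ : Gam (qq t n h) ⧸ GamN (qq t n h) (N : ℂ) → Set Mat :=
    Quotient.lift (BR1_F h N) fun a b hab => (BR1_eq h N a b).2 (QuotientGroup.leftRel_apply.1 hab)
  have h2 : Function.Injective φ := by
    intro a b
    induction a using QuotientGroup.induction_on with | _ a =>
    induction b using QuotientGroup.induction_on with | _ b =>
    intro hab
    exact QuotientGroup.eq.2 ((BR1_eq h N a b).1 hab)
  have h3 : Set.range φ = Set.range (BR1_F h N) := by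
    ext C
    constructor
    · rintro ⟨a, rfl⟩
      induction a using QuotientGroup.induction_on with | _ a =>
      exact ⟨a, rfl⟩
    · rintro ⟨a, rfl⟩
      exact ⟨QuotientGroup.mk a, rfl⟩
  unfold index
  rw [h1, ← h3, ← Nat.card_coe_set_eq, Nat.card_range_of_injective h2]
  rfl

end

end Pool.Agent.Lib.H80S
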