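import Pool.Agent.Lib.H80S.BR1
import Pool.Agent.Lib.H80D.ED
import Pool.Agent.Lib.H80D.B8

/-!
# BR3: cusp forms and Hecke eigenfunctions
-/

namespace Pool.Agent.Lib.H80S

open Matrix hiding J
open MeasureTheory
open Pool.Agent.Lib.H56.Picard (SU21 mat X mu mkSU U)
open Pool.Agent.Lib.H56.Gen (QD OO Gam GamN Cusp PsiE)
open scoped ENNReal

noncomputable section

variable {t n : ℤ}

/-- Translations of the lattice are elements of the group `K.B`. -/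
lemma BR3_mem {q : QD} (K : Cusp q) (a b : ℤ) {w : ℂ} (hw : ∃ x ∈ OO q, w = K.p * x)
    (hr : 2 * w.re = -Complex.normSq (K.lv a b)) :
    ∃ γ : Gam q, γ ∈ K.B ∧ mat γ.1 = H56.Picard.TM (K.lv a b) w := by
  have hl : K.lv a b ∈ OO q := H56.Gen.PO_le K.hp (K.lv_mem a b)
  have hwO : w ∈ OO q := H56.Gen.PO_le K.hp hw
  have hmem : H56.Picard.T (K.lv a b) w hr ∈ Gam q := by
    intro i j
    rw [H56.Picard.mat_T]
    fin_cases i <;> fin_cases j <;>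
      simp [H56.Picard.TM, (OO q).one_mem, (OO q).zero_mem, hl, hwO]
    exact H56.Gen.star_mem _ hl
  exact ⟨⟨H56.Picard.T (K.lv a b) w hr, hmem⟩, ⟨a, b, w, hw, hr, H56.Picard.mat_T hr⟩,
    H56.Picard.mat_T hr⟩

/-- PROOF. `CuspForm` for `mat g` and the data `e1, e2, w1, w2, P` of `K`; the three translations are elements of
`K.B` (`mem_B`). -/
theorem cuspForm_of {f : ℂ × ℂ → ℂ} (h : t ^ 2 < 4 * n) (hf : CuspForm t n f) :
    H80D.CuspForm (qq t n h) f := by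
  intro g N hN hg K hper u hu
  have hper' : ∀ (a b : ℤ) (w : ℂ), (∃ x ∈ OO (qq t n h), w = K.p * x) →
      2 * w.re = -Complex.normSq (K.lv a b) → ∀ z, 0 < height z →
        f (act (mat g * TM (K.lv a b) w) z) = f (act (mat g) z) := by
    intro a b w hw hr z hz
    obtain ⟨γ, hγ, hγe⟩ := BR3_mem K a b hw hr
    have h1 := hper γ hγ z hz
    rw [H56.Picard.mat_mul, hγe] at h1
    rw [act_eq, act_eq]
    exact h1
  have l1 : K.lv 1 0 = K.e1 := by simp [H56.Gen.Cusp.lv]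
  have l2 : K.lv 0 1 = K.e2 := by simp [H56.Gen.Cusp.lv]
  have l3 : K.lv 0 0 = 0 := by simp [H56.Gen.Cusp.lv]
  have h2 := hf (mat g) (mat_mem_SU g) ⟨N, hN, fun i j => (mem_Ord h).2 (hg i j)⟩ K.e1 K.e2 K.w1 K.w2
    K.P K.r1 K.r2 K.hP K.cov (fun z hz => ⟨?_, ?_, ?_⟩) u hu
  · refine Eq.trans ?_ h2
    simp only [act_eq, point_eq]
  · have := hper' 1 0 K.w1 K.hw1 (by rw [l1]; exact K.r1) z hz
    rwa [l1] at this
  · have := hper' 0 1 K.w2 K.hw2 (by rw [l2]; exact K.r2) z hz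
    rwa [l2] at this
  · have := hper' 0 0 ⟨0, K.P / 2⟩ K.hw0 (by rw [l3]; simp) z hz
    rwa [l3] at this

theorem mem_Delta (h : t ^ 2 < 4 * n) {N p k : ℕ} (g : SU21) :
    mat g ∈ Delta t n N p k ↔ H80D.Hgt (qq t n h) p N k g := by
  constructor
  · rintro ⟨-, h1, i0, j0, h2⟩
    refine ⟨fun i j => ?_, i0, j0, fun x hx => h2 x ((mem_Ord h).2 hx)⟩
    obtain ⟨x, hx, hxe⟩ := h1 i j
    exact ⟨x, (mem_Ord h).1 hx, hxe⟩
  · rintro ⟨h1, i0, j0, h2⟩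
    refine ⟨mat_mem_SU g, fun i j => ?_, i0, j0, fun x hx => h2 x ((mem_Ord h).1 hx)⟩
    obtain ⟨x, hx, hxe⟩ := h1 i j
    exact ⟨x, (mem_Ord h).2 hx, hxe⟩

/-- PROOF. The elements of `S` come from elements of `SU21` (`exists_SU21`; `mat` is injective):
`S = S'.map mat`. `g s⁻¹ ∈ Γ(N)` is `Hgt .. 0` by `hgt_zero` (`H80D/TG1.lean`). -/
theorem isHecke_of (h : t ^ 2 < 4 * n) {N p : ℕ} (hp : p.Prime) {f : ℂ × ℂ → ℂ} {θ : ℂ}
    (hf : IsHecke t n N p f θ) : H80D.IsHecke (qq t n h) p N f θ := by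
  classical
  obtain ⟨S, hS1, hS2, hS3⟩ := hf
  have hinj : Function.Injective (mat : SU21 → Mat) := H56.Picard.mat_injective
  set S' : Finset SU21 := S.preimage mat hinj.injOn with hS'
  have hmem : ∀ s : SU21, s ∈ S' ↔ mat s ∈ S := fun s => by rw [hS', Finset.mem_preimage]
  have hiff : ∀ g s : SU21, (∃ γ ∈ Gamma t n N, mat g = γ * mat s) ↔
      H80D.Hgt (qq t n h) p N 0 (g * s⁻¹) := by
    intro g s
    rw [H80D.hgt_zero hp, ← mem_Gamma h]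
    constructor
    · rintro ⟨γ, hγ, h1⟩
      obtain ⟨γ', rfl⟩ := exists_SU21 hγ.1
      have h2 : g = γ' * s := hinj h1
      rw [h2, mul_inv_cancel_right]
      exact hγ
    · intro h1
      refine ⟨_, h1, ?_⟩
      rw [← H56.Picard.mat_mul, inv_mul_cancel_right]
  refine ⟨S', ⟨fun s hs => (mem_Delta h s).1 (hS1 _ ((hmem s).1 hs)), fun g hg => ?_⟩, ?_⟩
  · obtain ⟨s, ⟨hs, hs2⟩, huniq⟩ := hS2 (mat g) ((mem_Delta h g).2 hg)
    obtain ⟨s', rfl⟩ := exists_SU21 (hS1 s hs).1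
    refine ⟨s', ⟨(hmem s').2 hs, (hiff g s').1 hs2⟩, fun s2 hs2' => ?_⟩
    exact hinj (huniq (mat s2) ⟨(hmem s2).1 hs2'.1, (hiff g s2).2 hs2'.2⟩)
  · intro z hz
    rw [← hS3 z hz]
    have h1 := Finset.sum_preimage (mat : SU21 → Mat) S hinj.injOn (fun s => f (act s z))
      (fun x hx hx' => absurd (exists_SU21 (hS1 x hx).1) hx')
    rw [← h1]
    exact Finset.sum_congr rfl fun s _ => by rw [act_eq]

/-- PROOF. `nm ⟨a, b⟩ = a² + t a b + n b²`; `p ∣ ⟨a, b⟩` if `p ∣ a`, `p ∣ b`. -/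
theorem inert_of (h : t ^ 2 < 4 * n) {p : ℕ} (hp : p.Prime) (hi : Inert t n p) :
    H80D.Inert (H80D.qd (qq t n h)) p := by
  refine ⟨hp, fun z hz => ?_⟩
  obtain ⟨⟨a, ha⟩, ⟨b, hb⟩⟩ := hi z.re z.im hz
  refine ⟨⟨a, b⟩, ?_⟩
  apply QuadraticAlgebra.ext
  · simp [ha]
  · simp [hb]

end

end Pool.Agent.Lib.H80S
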