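import Pool.Agent.Lib.H80S.Stm2
import Pool.Agent.Lib.H80S.BR3
import Pool.Agent.Lib.H80P.PD

/-!
# BR4: split primes
-/

namespace Pool.Agent.Lib.H80S

open Matrix hiding J
open MeasureTheory
open Pool.Agent.Lib.H56.Picard (SU21 mat X mu mkSU U)
open Pool.Agent.Lib.H56.Gen (QD OO Gam GamN Cusp PsiE)
open scoped ENNReal

noncomputable section

variable {t n : ℤ}

theorem split_of (h : t ^ 2 < 4 * n) {p : ℕ} (hs : Splits t n p) : H80P.Split (qq t n h) p := hs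

/-- PROOF. As `isHecke_of` in `BR3.lean`, with height `k`. -/
theorem isHeckeL_of (h : t ^ 2 < 4 * n) {N p k : ℕ} (hp : p.Prime) {f : ℂ × ℂ → ℂ} {θ : ℂ}
    (hf : IsHeckeK t n N p k f θ) : H80P.IsHeckeL (qq t n h) p N k f θ := by
  classical
  obtain ⟨S, hS1, hS2, hS3⟩ := hf
  have hinj : Function.Injective (mat : SU21 → Mat) := H56.Picard.mat_injective
  set S' : Finset SU21 := S.preimage mat hinj.injOn with hS'
  have hmem : ∀ s : SU21, s ∈ S' ↔ mat s ∈ S := fun s => by rw [hS', Finset.mem_preimage]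
  have hiff : ∀ g s : SU21, (∃ γ ∈ Gamma t n N, mat g = γ * mat s) ↔
      H80D.Hgt (qq t n h) p N 0 (g * s⁻¹) := by
    intro g s
    rw [H80D.hgt_zero hp, ← mem_Gamma h]
    constructor
    · rintro ⟨γ, hγ, h1⟩
      obtain ⟨γ', rfl⟩ := exists_SU21 hγ.1
      have h2 : g = γ' * s := hinj h1
      rw [h2, mul_inv_cancel_right]
      exact hγ
    · intro h1
      refine ⟨_, h1, ?_⟩
      rw [← H56.Picard.mat_mul, inv_mul_cancel_right]
  refine ⟨S', ⟨fun s hs => (mem_Delta h s).1 (hS1 _ ((hmem s).1 hs)), fun g hg => ?_⟩, ?_⟩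
  · obtain ⟨s, ⟨hs, hs2⟩, huniq⟩ := hS2 (mat g) ((mem_Delta h g).2 hg)
    obtain ⟨s', rfl⟩ := exists_SU21 (hS1 s hs).1
    refine ⟨s', ⟨(hmem s').2 hs, (hiff g s').1 hs2⟩, fun s2 hs2' => ?_⟩
    exact hinj (huniq (mat s2) ⟨(hmem s2).1 hs2'.1, (hiff g s2).2 hs2'.2⟩)
  · intro z hz
    rw [← hS3 z hz]
    have h1 := Finset.sum_preimage (mat : SU21 → Mat) S hinj.injOn (fun s => f (act s z))
      (fun x hx hx' => absurd (exists_SU21 (hS1 x hx).1) hx')
    rw [← h1]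
    exact Finset.sum_congr rfl fun s _ => by rw [act_eq]

theorem satake_of (h : t ^ 2 < 4 * n) {N p : ℕ} (hp : p.Prime) {f : ℂ × ℂ → ℂ}
    {α : Fin 3 → ℂ} (hf : SatakeSplit t n N p f α) : H80P.Satake (qq t n h) p N f α := by
  obtain ⟨θ, h1, h2⟩ := hf.ev
  exact ⟨θ, fun k => isHeckeL_of h hp (h1 k), fun j => h2 j⟩

end

end Pool.Agent.Lib.H80S
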