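import Pool.Agent.Lib.H80S.Fin
import Pool.Agent.Lib.H80S.BR4
import Pool.Agent.Lib.H80P.PF5

/-!
# The density theorem at a split prime
-/

namespace Pool.Agent.Lib.H80S

open Matrix hiding J
open MeasureTheory
open Pool.Agent.Lib.H56.Picard (SU21 mat X mu mkSU U)
open Pool.Agent.Lib.H56.Gen (QD OO Gam GamN Cusp PsiE)
open scoped ENNReal

noncomputable section

theorem density_at_split (t n : ℤ) (h : t ^ 2 < 4 * n) (ε : ℝ) (hε : 0 < ε) :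
    ∃ C : ℝ, ∀ p N : ℕ, p.Prime → Splits t n p → 1 ≤ N → Nat.Coprime N p →
    ∀ Lam : ℝ, 0 ≤ Lam → ∀ ν : ℝ, 0 ≤ ν → ν ≤ 1 →
    ∀ (m : ℕ) (f : Fin m → ℂ × ℂ → ℂ) (lam : Fin m → ℂ) (α : Fin m → Fin 3 → ℂ),
    (∀ i, AutForm t n N (f i) (lam i)) → (∀ i, (lam i).re ≤ Lam) → (∀ i, CuspForm t n (f i)) →
    (∀ i, SatakeSplit t n N p (f i) (α i)) →
    (∀ i, (p : ℝ) ^ ν ≤ ‖α i 0‖ ∧ ‖α i 1‖ ≤ ‖α i 0‖ ∧ ‖α i 2‖ ≤ ‖α i 0‖) →
    (∀ c : Fin m → ℂ, (∀ z, 0 < height z → ∑ i, c i * f i z = 0) → c = 0) →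
    (m : ℝ) ≤ C * (1 + Lam) ^ 12 * (p : ℝ) ^ 6 * (index t n N : ℝ) ^ (1 - ν + ε) := by
  obtain ⟨D⟩ := H56M.exists_MC (qq t n h)
  obtain ⟨C, hC⟩ := H80P.density_split D
    (fun δ hδ => by
      obtain ⟨C, -, hC⟩ := H89D.index_bound (qq t n h) hδ
      exact ⟨C, hC⟩) (H89D.le_index (qq t n h)) hε
  refine ⟨C, fun p N hp hs hN hNp Lam hLam ν hν hν1 m f lam α hf hlam hcf hα hbd hli => ?_⟩
  rw [index_eq h N]
  exact hC p N hp (split_of h hs) hN hNp Lam hLam ν hν hν1 m f lam α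
    (fun i => eig_of h D hN (hf i)) hlam (fun i => cuspForm_of h (hcf i))
    (fun i => satake_of h hp (hα i)) hbd (fun c hc => hli c hc)

end

end Pool.Agent.Lib.H80S
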