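import Pool.Agent.Lib.H80S.Stm2

/-!
# Definitions for the statement at all unramified primes
-/

namespace Pool.Agent.Lib.H80S

open MeasureTheory Matrix

noncomputable section

/-- The number of elements of the residue field of the quadratic field at a place above the unramified prime `p`:
`p` if `p` splits, `p²` if `p` is inert. -/
def resCard (t n : ℤ) (p : ℕ) : ℕ :=
  open Classical in if Splits t n p then p else p ^ 2

/-- `α` is the Satake parameter (base change to `GL₃` of the quadratic field) of `f` at the unramified prime `p`.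
If `p` splits (the group is `SL₃(ℚ_p)`): `T(p^j)^* T(p^j)` (`T(p^j)` is the sum over the sublattices of index `p^j`)
equals `∑_{k ≤ j} latCount (j - k) T_k`, `T_k` the Hecke operator of `Delta k`, with eigenvalue `|p^j h_j(α)|²`.
If `p` is inert: `α = (α₀, 1, α₀⁻¹)` and `T_1` has the eigenvalue `p² (α₀ + α₀⁻¹) + p - 1`. -/
structure Satake (t n : ℤ) (N p : ℕ) (f : ℂ × ℂ → ℂ) (α : Fin 3 → ℂ) : Prop where
  prod : α 0 * α 1 * α 2 = 1
  split : Splits t n p → ∃ θ : ℕ → ℂ, (∀ k, IsHeckeK t n N p k f (θ k)) ∧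
    ∀ j, ∑ k ∈ Finset.range (j + 1), (latCount p (j - k) : ℂ) * θ k =
      (((p : ℝ) ^ (2 * j) * Complex.normSq (hsymm α j) : ℝ) : ℂ)
  inert : ¬Splits t n p → α 1 = 1 ∧ IsHeckeK t n N p 1 f ((p : ℂ) ^ 2 * (α 0 + α 2) + (p - 1))

end

end Pool.Agent.Lib.H80S
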