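import Pool.Agent.Lib.H80S.Fin2
import Pool.Agent.Lib.H80S.Stm3

/-!
# The density theorem at all unramified primes
-/

namespace Pool.Agent.Lib.H80S

open Matrix hiding J
open MeasureTheory
open Pool.Agent.Lib.H56.Picard (SU21 mat X mu mkSU U)
open Pool.Agent.Lib.H56.Gen (QD OO Gam GamN Cusp PsiE)
open scoped ENNReal

noncomputable section

/-- A prime prime to the discriminant splits or is inert. -/
theorem inert_of_not_splits {t n : ℤ} {p : ℕ} (hp : p.Prime) (hd : ¬(p : ℤ) ∣ t ^ 2 - 4 * n)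
    (hs : ¬Splits t n p) : Inert t n p := by
  intro a b hab
  have hpz : Prime (p : ℤ) := Nat.prime_iff_prime_int.1 hp
  by_cases hb : (p : ℤ) ∣ b
  · refine ⟨?_, hb⟩
    obtain ⟨c, rfl⟩ := hb
    have h1 : (p : ℤ) ∣ a ^ 2 := by
      have h2 : a ^ 2 = (a ^ 2 + t * (a * (p * c)) + n * (p * c) ^ 2) -
          p * (t * a * c + n * p * c ^ 2) := by ring
      rw [h2]
      exact dvd_sub hab (dvd_mul_right _ _)
    exact hpz.dvd_of_dvd_pow h1
  · exfalso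
    apply hs
    refine ⟨?_, hd⟩
    obtain ⟨u, v, huv⟩ := ((Prime.coprime_iff_not_dvd hpz).2 hb)
    -- u p + v b = 1
    obtain ⟨c, hc⟩ := hab
    refine ⟨-(a * v), ?_⟩
    refine ⟨v ^ 2 * c + n * u * (1 + v * b) + t * a * v * u, ?_⟩
    linear_combination v ^ 2 * hc + (-(n * (1 + v * b)) - t * a * v) * huv

/-- The Hecke eigenvalue at an inert prime is real. -/
theorem hecke_im {t n : ℤ} (h : t ^ 2 < 4 * n) {p N : ℕ} (hp : p.Prime) (hi : Inert t n p) (hN : 1 ≤ N)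
    (hNp : Nat.Coprime N p) {f : ℂ × ℂ → ℂ} {lam θ : ℂ} (hf : AutForm t n N f lam)
    (hθ : IsHecke t n N p f θ) (hne : ∃ z, 0 < height z ∧ f z ≠ 0) : θ.im = 0 := by
  obtain ⟨D⟩ := H56M.exists_MC (qq t n h)
  have hE := eig_of h D hN hf
  have hne' : ∃ z ∈ U, f z ≠ 0 := hne
  have hN0 : (N : ℂ) ≠ 0 := by
    have : N ≠ 0 := by omega
    exact_mod_cast this
  have hfin : (GamN (qq t n h) (N : ℂ)).FiniteIndex :=
    H56.Gen.GamN_finiteIndex (natCast_mem _ N) hN0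
  exact H80D.hecke_real (W := (H80D.RDof D).toWD) (inert_of h hp hi) hN hNp
    (H80D.F5_gd (H56M.Good_of_Eig hE hne').1) (isHecke_of h hp hθ) hne'

/-- If `a + a⁻¹` is real and `|a| ≥ x > 1`, then `|a + a⁻¹| ≥ x + x⁻¹`. -/
theorem norm_add_inv_ge {a : ℂ} {x : ℝ} (hx : 1 < x) (hax : x ≤ ‖a‖) (him : (a + a⁻¹).im = 0) :
    x + x⁻¹ ≤ ‖a + a⁻¹‖ := by
  have ha1 : 1 < ‖a‖ := lt_of_lt_of_le hx hax
  have ha0 : a ≠ 0 := by
    intro h0
    rw [h0, norm_zero] at ha1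
    linarith
  have hns : 1 < Complex.normSq a := by
    rw [Complex.normSq_eq_norm_sq]
    nlinarith
  have h1 : a.im * (1 - (Complex.normSq a)⁻¹) = 0 := by
    rw [Complex.add_im, Complex.inv_im] at him
    have h2 : a.im * (1 - (Complex.normSq a)⁻¹) = a.im + -a.im / Complex.normSq a := by
      field_simp
      ring
    rw [h2, him]
  have h3 : (1 - (Complex.normSq a)⁻¹) ≠ 0 := by
    have h4 : (Complex.normSq a)⁻¹ < 1 := inv_lt_one_of_one_lt₀ hns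
    linarith
  have h5 : a.im = 0 := (mul_eq_zero.1 h1).resolve_right h3
  obtain ⟨r, hr⟩ : ∃ r : ℝ, a = r := ⟨a.re, Complex.ext rfl (by simp [h5])⟩
  subst hr
  have hr1 : ‖(r : ℂ)‖ = |r| := by rw [Complex.norm_real, Real.norm_eq_abs]
  rw [hr1] at hax ha1
  have e1 : ‖(r : ℂ) + (r : ℂ)⁻¹‖ = |r| + |r|⁻¹ := by
    rw [← Complex.ofReal_inv, ← Complex.ofReal_add, Complex.norm_real, Real.norm_eq_abs]
    rcases le_or_gt 0 r with h6 | h6
    · rw [abs_of_nonneg h6, abs_of_nonneg (by positivity)]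
    · have h7 : r⁻¹ < 0 := inv_lt_zero.2 h6
      rw [abs_of_neg (by linarith), abs_of_neg h6, inv_neg]
      ring
  rw [e1]
  have hr0 : 0 < |r| := by linarith
  have hx0 : 0 < x := by linarith
  have e2 : |r| + |r|⁻¹ - (x + x⁻¹) = (|r| - x) * (1 - |r|⁻¹ * x⁻¹) := by
    field_simp
    ring
  have e3 : |r|⁻¹ * x⁻¹ ≤ 1 := by
    have h8 : |r|⁻¹ ≤ 1 := inv_le_one_of_one_le₀ ha1.le
    have h9 : x⁻¹ ≤ 1 := inv_le_one_of_one_le₀ hx.le
    have h10 : 0 ≤ x⁻¹ := by positivity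
    have h11 : 0 ≤ |r|⁻¹ := by positivity
    nlinarith
  nlinarith [mul_nonneg (sub_nonneg.2 hax) (sub_nonneg.2 e3)]

theorem density_unramified (t n : ℤ) (h : t ^ 2 < 4 * n) (ε : ℝ) (hε : 0 < ε) :
    ∃ C : ℝ, ∀ p N : ℕ, p.Prime → ¬(p : ℤ) ∣ t ^ 2 - 4 * n → 1 ≤ N → Nat.Coprime N p →
    ∀ Lam : ℝ, 0 ≤ Lam → ∀ ν : ℝ, 0 < ν → ν ≤ 1 →
    ∀ (m : ℕ) (f : Fin m → ℂ × ℂ → ℂ) (lam : Fin m → ℂ) (α : Fin m → Fin 3 → ℂ),
    (∀ i, AutForm t n N (f i) (lam i)) → (∀ i, (lam i).re ≤ Lam) → (∀ i, CuspForm t n (f i)) →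
    (∀ i, Satake t n N p (f i) (α i)) →
    (∀ i, (resCard t n p : ℝ) ^ ν ≤ ‖α i 0‖ ∧ ‖α i 1‖ ≤ ‖α i 0‖ ∧ ‖α i 2‖ ≤ ‖α i 0‖) →
    (∀ c : Fin m → ℂ, (∀ z, 0 < height z → ∑ i, c i * f i z = 0) → c = 0) →
    (m : ℝ) ≤ C * (1 + Lam) ^ 12 * (p : ℝ) ^ 6 * (index t n N : ℝ) ^ (1 - ν + ε) := by
  classical
  obtain ⟨C₁, h₁⟩ := density_at_inert t n h ε hε
  obtain ⟨C₂, h₂⟩ := density_at_split t n h ε hε
  refine ⟨max 0 (max C₁ C₂), fun p N hp hd hN hNp Lam hLam ν hν hν1 m f lam α hf hlam hcf hα hbd hli => ?_⟩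
  have hp1 : (1 : ℝ) < p := by exact_mod_cast hp.one_lt
  have hC : 0 ≤ max 0 (max C₁ C₂) := le_max_left _ _
  have hX : 0 ≤ (index t n N : ℝ) ^ (1 - ν + ε) := by positivity
  have hL : (0 : ℝ) ≤ (1 + Lam) ^ 12 := by positivity
  by_cases hs : Splits t n p
  · have hq : (resCard t n p : ℝ) = p := by rw [resCard, if_pos hs]
    have h3 := h₂ p N hp hs hN hNp Lam hLam ν hν.le hν1 m f lam α hf hlam hcf
      (fun i => ⟨(hα i).prod, (hα i).split hs⟩) (fun i => by rw [← hq]; exact hbd i) hli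
    refine h3.trans ?_
    have h4 : C₂ ≤ max 0 (max C₁ C₂) := (le_max_right _ _).trans (le_max_right _ _)
    have h5 : 0 ≤ (1 + Lam) ^ 12 * (p : ℝ) ^ 6 * (index t n N : ℝ) ^ (1 - ν + ε) := by positivity
    calc C₂ * (1 + Lam) ^ 12 * (p : ℝ) ^ 6 * (index t n N : ℝ) ^ (1 - ν + ε)
        = C₂ * ((1 + Lam) ^ 12 * (p : ℝ) ^ 6 * (index t n N : ℝ) ^ (1 - ν + ε)) := by ring
      _ ≤ max 0 (max C₁ C₂) * ((1 + Lam) ^ 12 * (p : ℝ) ^ 6 * (index t n N : ℝ) ^ (1 - ν + ε)) :=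
        mul_le_mul_of_nonneg_right h4 h5
      _ = _ := by ring
  · have hi := inert_of_not_splits hp hd hs
    have hq : (resCard t n p : ℝ) = (p : ℝ) ^ 2 := by rw [resCard, if_neg hs]; push_cast; rfl
    have hne : ∀ i, ∃ z, 0 < height z ∧ f i z ≠ 0 := by
      intro i
      by_contra hcon
      push Not at hcon
      have h1 := hli (Pi.single i 1) (fun z hz => by
        rw [Finset.sum_eq_single i]
        · rw [hcon z hz, mul_zero]
        · intro j _ hj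
          rw [Pi.single_eq_of_ne hj, zero_mul]
        · intro h
          exact absurd (Finset.mem_univ i) h)
      have h2 := congrFun h1 i
      rw [Pi.single_eq_same] at h2
      exact one_ne_zero h2
    have hhe : ∀ i, IsHecke t n N p (f i) ((p : ℂ) ^ 2 * (α i 0 + α i 2) + (p - 1)) := fun i =>
      ((hα i).inert hs).2
    have hα2 : ∀ i, α i 2 = (α i 0)⁻¹ := by
      intro i
      have h1 := (hα i).prod
      rw [((hα i).inert hs).1, mul_one] at h1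
      exact eq_inv_of_mul_eq_one_right h1
    have hbd' : ∀ i, (p : ℝ) ^ 2 * ((p : ℝ) ^ (2 * ν) + (p : ℝ) ^ (-(2 * ν))) ≤
        ‖((p : ℂ) ^ 2 * (α i 0 + α i 2) + (p - 1)) - (p - 1)‖ := by
      intro i
      have him := hecke_im h hp hi hN hNp (hf i) (hhe i) (hne i)
      have him2 : (α i 0 + α i 2).im = 0 := by
        have e1 : ((p : ℂ) ^ 2 * (α i 0 + α i 2) + (p - 1)) =
            (((p : ℝ) ^ 2 : ℝ) : ℂ) * (α i 0 + α i 2) + (((p : ℝ) - 1 : ℝ) : ℂ) := by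
          push_cast
          ring
        rw [e1, Complex.add_im, Complex.ofReal_im, add_zero, Complex.im_ofReal_mul] at him
        have hp2 : ((p : ℝ) ^ 2) ≠ 0 := by positivity
        exact (mul_eq_zero.1 him).resolve_left hp2
      rw [add_sub_cancel_right, norm_mul, norm_pow, Complex.norm_natCast]
      apply mul_le_mul_of_nonneg_left _ (by positivity)
      rw [hα2 i] at him2 ⊢
      have hx1 : (1 : ℝ) < (p : ℝ) ^ (2 * ν) := Real.one_lt_rpow hp1 (by linarith)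
      have hx2 : (p : ℝ) ^ (2 * ν) ≤ ‖α i 0‖ := by
        refine le_trans (le_of_eq ?_) (hbd i).1
        rw [hq, ← Real.rpow_natCast, ← Real.rpow_mul (by linarith)]
        norm_num
      have h3 := norm_add_inv_ge hx1 hx2 him2
      rwa [Real.rpow_neg (by linarith)]
    have h3 := h₁ p N hp hi hN hNp Lam hLam ν hν.le hν1 m f lam _ hf hlam hcf hhe hbd' hli
    refine h3.trans ?_
    have h4 : C₁ ≤ max 0 (max C₁ C₂) := (le_max_left _ _).trans (le_max_right _ _)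
    have h6 : (p : ℝ) ^ 4 ≤ (p : ℝ) ^ 6 := pow_le_pow_right₀ hp1.le (by norm_num)
    calc C₁ * (1 + Lam) ^ 12 * (p : ℝ) ^ 4 * (index t n N : ℝ) ^ (1 - ν + ε)
        = C₁ * ((1 + Lam) ^ 12 * (p : ℝ) ^ 4 * (index t n N : ℝ) ^ (1 - ν + ε)) := by ring
      _ ≤ max 0 (max C₁ C₂) * ((1 + Lam) ^ 12 * (p : ℝ) ^ 4 * (index t n N : ℝ) ^ (1 - ν + ε)) :=
        mul_le_mul_of_nonneg_right h4 (by positivity)
      _ ≤ max 0 (max C₁ C₂) * ((1 + Lam) ^ 12 * (p : ℝ) ^ 6 * (index t n N : ℝ) ^ (1 - ν + ε)) := by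
        apply mul_le_mul_of_nonneg_left _ hC
        exact mul_le_mul_of_nonneg_right (mul_le_mul_of_nonneg_left h6 hL) hX
      _ = _ := by ring

end

end Pool.Agent.Lib.H80S
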