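import Mathlib

/-!
# Definitions for the statements of the density theorems for `SU(2,1)`

Everything is explicit: matrices over `ℂ`, the Siegel domain model of the complex hyperbolic plane in `ℂ × ℂ`.
-/

namespace Pool.Agent.Lib.H80S

open MeasureTheory Matrix

noncomputable section

/-- Complex `3 × 3` matrices. -/
abbrev Mat : Type := Matrix (Fin 3) (Fin 3) ℂ

/-- `ω = (t + √(t² - 4n))/2`, a root of `ω² = t ω - n` (here `t² < 4n`). -/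
def omega (t n : ℤ) : ℂ := ⟨(t : ℝ) / 2, √(4 * n - t ^ 2 : ℝ) / 2⟩

/-- The imaginary quadratic order `ℤ[ω]`. -/
def Ord (t n : ℤ) : Set ℂ := {x | ∃ a b : ℤ, x = a + b * omega t n}

/-- The Hermitian form of signature `(2,1)`. -/
def J : Mat := !![0, 0, 1; 0, 1, 0; 1, 0, 0]

/-- The group `SU(2,1)`. -/
def SU : Set Mat := {g | gᴴ * J * g = J ∧ g.det = 1}

/-- The principal congruence subgroup `Γ(N)` of `SU(2,1; ℤ[ω])`; `Γ(1)` is the whole group. -/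
def Gamma (t n : ℤ) (N : ℕ) : Set Mat :=
  {g | g ∈ SU ∧ ∀ i j, ∃ x ∈ Ord t n, g i j - (1 : Mat) i j = N * x}

/-- The index of `Γ(N)` in `Γ(1)`: the number of cosets `g Γ(N)`. -/
def index (t n : ℤ) (N : ℕ) : ℕ :=
  Set.ncard {C : Set Mat | ∃ g ∈ Gamma t n 1, C = {h | ∃ γ ∈ Gamma t n N, h = g * γ}}

/-- Height `u(z) = -2 Re z₁ - |z₂|²`; the complex hyperbolic plane is `{u > 0}`. -/
def height (z : ℂ × ℂ) : ℝ := -(2 * z.1.re) - Complex.normSq z.2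

/-- The projective action of matrices on points `(z₁, z₂, 1)`. -/
def act (g : Mat) (z : ℂ × ℂ) : ℂ × ℂ :=
  ((g 0 0 * z.1 + g 0 1 * z.2 + g 0 2) / (g 2 0 * z.1 + g 2 1 * z.2 + g 2 2),
    (g 1 0 * z.1 + g 1 1 * z.2 + g 1 2) / (g 2 0 * z.1 + g 2 1 * z.2 + g 2 2))

/-- The Laplace-Beltrami operator of the invariant metric `4 u⁻² (|dz₁ + \bar z₂ dz₂|² + u |dz₂|²)`;
`laplacian u^s = s (s - 2) u^s`. -/
def laplacian (f : ℂ × ℂ → ℂ) (z : ℂ × ℂ) : ℂ :=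
  (height z : ℂ) ^ 2 * (iteratedFDeriv ℝ 2 f z ![(1 / 2, 0), (1 / 2, 0)] +
    iteratedFDeriv ℝ 2 f z ![(Complex.I / 2, 0), (Complex.I / 2, 0)]) +
  (height z : ℂ) / 4 * (iteratedFDeriv ℝ 2 f z ![(-star z.2, 1), (-star z.2, 1)] +
    iteratedFDeriv ℝ 2 f z
      ![(-(Complex.I * star z.2), Complex.I), (-(Complex.I * star z.2), Complex.I)])

/-- Eigenfunctions of the Laplacian in `L²(Γ(N)\X)`: `|f|²` is integrable over some measurable set whose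
`Γ(N)`-translates cover `X`; the invariant measure is `u⁻³` times Lebesgue measure. -/
structure AutForm (t n : ℤ) (N : ℕ) (f : ℂ × ℂ → ℂ) (lam : ℂ) : Prop where
  smooth : ContDiffOn ℝ 2 f {z | 0 < height z}
  inv : ∀ γ ∈ Gamma t n N, ∀ z, 0 < height z → f (act γ z) = f z
  eig : ∀ z, 0 < height z → laplacian f z = -(lam * f z)
  L2 : ∃ F : Set (ℂ × ℂ), MeasurableSet F ∧ (∀ z ∈ F, 0 < height z) ∧
    (∀ z, 0 < height z → ∃ γ ∈ Gamma t n N, act γ z ∈ F) ∧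
    ∫⁻ z in F, ENNReal.ofReal ((height z)⁻¹ ^ 3 * Complex.normSq (f z)) < ⊤

/-- Heisenberg translations (for `2 Re w = -|l|²`). -/
def TM (l w : ℂ) : Mat := !![1, -star l, w; 0, 1, l; 0, 0, 1]

/-- The point of height `u` with `z₂ = s e₁ + r e₂` and `Im z₁ = v/2`. -/
def point (e1 e2 : ℂ) (s r v u : ℝ) : ℂ × ℂ :=
  (⟨(-Complex.normSq (s * e1 + r * e2) - u) / 2, v / 2⟩, s * e1 + r * e2)

/-- **Cusp forms**: for every element `g` of `SU(2,1)` with entries in the field (it moves `∞` to an arbitrary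
cusp) and all translations `T(e₁, w₁)`, `T(e₂, w₂)`, `T(0, i P/2)` leaving `f ∘ g` invariant, the mean value of
`f ∘ g` over each horosphere vanishes. -/
def CuspForm (t n : ℤ) (f : ℂ × ℂ → ℂ) : Prop :=
  ∀ g ∈ SU, (∃ M : ℕ, 1 ≤ M ∧ ∀ i j, (M : ℂ) * g i j ∈ Ord t n) →
    ∀ (e1 e2 w1 w2 : ℂ) (P : ℝ), 2 * w1.re = -Complex.normSq e1 → 2 * w2.re = -Complex.normSq e2 →
      0 < P → 0 < e1.re * e2.im - e1.im * e2.re →
      (∀ z, 0 < height z → f (act (g * TM e1 w1) z) = f (act g z) ∧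
        f (act (g * TM e2 w2) z) = f (act g z) ∧
        f (act (g * TM 0 ⟨0, P / 2⟩) z) = f (act g z)) →
      ∀ u : ℝ, 0 < u → ∫ s in (0:ℝ)..1, ∫ r in (0:ℝ)..1, ∫ v in (0:ℝ)..P,
        f (act g (point e1 e2 s r v u)) = 0

/-- The elements of `SU(2,1; ℤ[ω][1/p])`, congruent to one modulo `N`, with exact denominator `p ^ k`
(`p` prime to `N`). -/
def Delta (t n : ℤ) (N p k : ℕ) : Set Mat :=
  {g | g ∈ SU ∧ (∀ i j, ∃ x ∈ Ord t n, (p : ℂ) ^ k * (g i j - (1 : Mat) i j) = N * x) ∧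
    ∃ i j, ∀ x ∈ Ord t n, (p : ℂ) ^ k * g i j ≠ p * x}

/-- `f` is an eigenfunction of the Hecke operator `T_p f (z) = ∑ f (s z)`, `s ∈ Γ(N) \ Delta 1`. -/
def IsHecke (t n : ℤ) (N p : ℕ) (f : ℂ × ℂ → ℂ) (θ : ℂ) : Prop :=
  ∃ S : Finset Mat, (∀ s ∈ S, s ∈ Delta t n N p 1) ∧
    (∀ g ∈ Delta t n N p 1, ∃! s, s ∈ S ∧ ∃ γ ∈ Gamma t n N, g = γ * s) ∧
    ∀ z, 0 < height z → ∑ s ∈ S, f (act s z) = θ * f z

/-- `p` is inert in `ℤ[ω]`: the norm form is anisotropic modulo `p`. -/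
def Inert (t n : ℤ) (p : ℕ) : Prop :=
  ∀ a b : ℤ, (p : ℤ) ∣ a ^ 2 + t * (a * b) + n * b ^ 2 → (p : ℤ) ∣ a ∧ (p : ℤ) ∣ b

end

end Pool.Agent.Lib.H80S
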