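import Pool.Agent.Lib.H80S.Stm

/-!
# Definitions for the statement at split primes
-/

namespace Pool.Agent.Lib.H80S

open MeasureTheory Matrix

noncomputable section

/-- `p` splits in `ℤ[ω]` and does not divide the discriminant. -/
def Splits (t n : ℤ) (p : ℕ) : Prop :=
  (∃ a : ℤ, (p : ℤ) ∣ a ^ 2 - t * a + n) ∧ ¬(p : ℤ) ∣ t ^ 2 - 4 * n

/-- `f` is an eigenfunction of the Hecke operator `f ↦ ∑ f (s z)`, `s ∈ Γ(N) \ Delta k`. -/
def IsHeckeK (t n : ℤ) (N p k : ℕ) (f : ℂ × ℂ → ℂ) (θ : ℂ) : Prop :=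
  ∃ S : Finset Mat, (∀ s ∈ S, s ∈ Delta t n N p k) ∧
    (∀ g ∈ Delta t n N p k, ∃! s, s ∈ S ∧ ∃ γ ∈ Gamma t n N, g = γ * s) ∧
    ∀ z, 0 < height z → ∑ s ∈ S, f (act s z) = θ * f z

/-- The number `∑ p ^ b (p²) ^ c`, `a + b + c = m`, of sublattices of index `p ^ m` of `ℤ_p³`. -/
def latCount (p m : ℕ) : ℕ := ∑ i ∈ Finset.range (m + 1), ∑ k ∈ Finset.range (i + 1), p ^ (i + k)

/-- The complete homogeneous symmetric polynomial `∑ α₀^a α₁^b α₂^c`, `a + b + c = j`. -/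
def hsymm (α : Fin 3 → ℂ) (j : ℕ) : ℂ :=
  ∑ a ∈ Finset.range (j + 1), ∑ b ∈ Finset.range (j + 1 - a), α 0 ^ a * α 1 ^ b * α 2 ^ (j - a - b)

/-- `α` is a Satake parameter of `f` at the split prime `p` (where the group is `SL₃(ℚ_p)`): the operator
`T(p^j)^* T(p^j)` (`T(p^j)` is the sum over the sublattices of index `p^j`) equals
`∑_{k ≤ j} latCount (j - k) T_k`, `T_k` the Hecke operator of `Delta k`, and has the eigenvalue `|p^j h_j(α)|²`. -/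
structure SatakeSplit (t n : ℤ) (N p : ℕ) (f : ℂ × ℂ → ℂ) (α : Fin 3 → ℂ) : Prop where
  prod : α 0 * α 1 * α 2 = 1
  ev : ∃ θ : ℕ → ℂ, (∀ k, IsHeckeK t n N p k f (θ k)) ∧
    ∀ j, ∑ k ∈ Finset.range (j + 1), (latCount p (j - k) : ℂ) * θ k =
      (((p : ℝ) ^ (2 * j) * Complex.normSq (hsymm α j) : ℝ) : ℂ)

end

end Pool.Agent.Lib.H80S
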